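import Mathlib

set_option autoImplicit false

/-!
# Counting the integers of a cell by their images at a lower level
-/

open Finset Filter Topology MeasureTheory

namespace Pool.Agent.N222.GW

theorem fib_card (A γ : ℝ) (hA : 0 < A) (v : ℕ) (hv : 0 ≤ (v : ℝ) - γ) :
    |((Ico ⌈A * (v - γ)⌉₊ ⌈A * (v + 1 - γ)⌉₊).card : ℝ) - A| ≤ 1 := by
  have h1 : 0 ≤ A * (v - γ) := mul_nonneg hA.le hv
  have h2 : A * (v - γ) ≤ A * (v + 1 - γ) := mul_le_mul_of_nonneg_left (by linarith) hA.le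
  rw [Nat.card_Ico, Nat.cast_sub (Nat.ceil_le_ceil h2)]
  have h3 := Nat.le_ceil (A * (v - γ))
  have h4 := Nat.ceil_lt_add_one h1
  have h5 := Nat.le_ceil (A * (v + 1 - γ))
  have h6 := Nat.ceil_lt_add_one (h1.trans h2)
  have h7 : A * (v + 1 - γ) = A * (v - γ) + A := by ring
  rw [abs_le]
  constructor <;> linarith

theorem fib_mem (A γ : ℝ) (hA : 0 < A) (v : ℕ) (hv : v ≠ 0) (n : ℕ) :
    ⌊(n : ℝ) / A + γ⌋₊ = v ↔ n ∈ Ico ⌈A * (v - γ)⌉₊ ⌈A * (v + 1 - γ)⌉₊ := by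
  rw [Nat.floor_eq_iff' hv, Finset.mem_Ico, Nat.ceil_le, Nat.lt_ceil]
  have e : (n : ℝ) / A * A = n := div_mul_cancel₀ _ hA.ne'
  constructor
  · rintro ⟨h1, h2⟩
    constructor
    · have : A * (v - γ) ≤ A * ((n : ℝ) / A) := mul_le_mul_of_nonneg_left (by linarith) hA.le
      linarith
    · have : A * ((n : ℝ) / A) < A * (v + 1 - γ) := mul_lt_mul_of_pos_left (by linarith) hA
      linarith
  · rintro ⟨h1, h2⟩
    constructor
    · have : (v : ℝ) - γ ≤ (n : ℝ) / A := by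
        rw [le_div_iff₀ hA]; linarith
      linarith
    · have : (n : ℝ) / A < v + 1 - γ := by
        rw [div_lt_iff₀ hA]; linarith
      linarith

theorem cnt1 (Q : ℕ → Prop) [DecidablePred Q] (A a c γ G : ℝ) (hA : 1 ≤ A) (ha : 0 ≤ a)
    (hγ : |γ| ≤ G) (V0 V1 : ℕ) (h0 : a + G ≤ V0) (h1 : (V1 : ℝ) + G ≤ c) (hV : 1 ≤ V0)
    (hVV : V0 ≤ V1) :
    |(((Ico ⌊a * A⌋₊ ⌈c * A⌉₊).filter (fun n : ℕ => Q ⌊(n : ℝ) / A + γ⌋₊)).card : ℝ) -
      A * ∑ v ∈ Ico V0 V1, (if Q v then (1 : ℝ) else 0)| ≤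
      (V1 - V0) + A * (V0 - a + G) + A * (c - V1 + G) + 4 := by
  have hA0 : 0 < A := by linarith
  obtain ⟨hγ1, hγ2⟩ := abs_le.1 hγ
  obtain ⟨F, hF⟩ : ∃ F, F = (Ico ⌊a * A⌋₊ ⌈c * A⌉₊).filter (fun n : ℕ => Q ⌊(n : ℝ) / A + γ⌋₊) :=
    ⟨_, rfl⟩
  rw [← hF]
  have hVVr : (V0 : ℝ) ≤ V1 := by exact_mod_cast hVV
  have hsplit := Finset.card_filter_add_card_filter_not (s := F)
    (fun n : ℕ => ⌊(n : ℝ) / A + γ⌋₊ ∈ Ico V0 V1)
  have hc1 : ((F.filter (fun n : ℕ => ⌊(n : ℝ) / A + γ⌋₊ ∈ Ico V0 V1)).card : ℝ) =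
      ∑ v ∈ Ico V0 V1, (if Q v then
        ((Ico ⌈A * ((v : ℝ) - γ)⌉₊ ⌈A * (v + 1 - γ)⌉₊).card : ℝ) else 0) := by
    rw [Finset.card_eq_sum_card_fiberwise (f := fun n : ℕ => ⌊(n : ℝ) / A + γ⌋₊)
      (s := F.filter (fun n : ℕ => ⌊(n : ℝ) / A + γ⌋₊ ∈ Ico V0 V1)) (t := Ico V0 V1)
      (fun n hn => Finset.mem_coe.2 (Finset.mem_filter.1 (Finset.mem_coe.1 hn)).2)]
    rw [Nat.cast_sum]
    refine Finset.sum_congr rfl fun v hv => ?_
    have hv' := Finset.mem_Ico.1 hv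
    have hv1 : (V0 : ℝ) ≤ v := by exact_mod_cast hv'.1
    have hv2 : (v : ℝ) + 1 ≤ V1 := by exact_mod_cast hv'.2
    split_ifs with hQ
    · congr 2
      ext n
      rw [Finset.mem_filter, Finset.mem_filter, ← fib_mem A γ hA0 v (by omega) n]
      constructor
      · exact fun h => h.2
      · intro h
        refine ⟨⟨?_, by rw [h]; exact hv⟩, h⟩
        rw [hF, Finset.mem_filter, h]
        refine ⟨?_, hQ⟩
        have hn := (fib_mem A γ hA0 v (by omega) n).1 h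
        rw [Finset.mem_Ico, Nat.ceil_le, Nat.lt_ceil] at hn
        rw [Finset.mem_Ico, Nat.lt_ceil]
        constructor
        · have h3 : a * A ≤ (n : ℝ) := by
            have : A * a ≤ A * ((v : ℝ) - γ) := mul_le_mul_of_nonneg_left (by linarith) hA0.le
            linarith [hn.1]
          exact_mod_cast (Nat.floor_le (by positivity : 0 ≤ a * A)).trans h3
        · have : A * ((v : ℝ) + 1 - γ) ≤ A * c := mul_le_mul_of_nonneg_left (by linarith) hA0.le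
          linarith [hn.2]
    · rw [Nat.cast_eq_zero, Finset.card_eq_zero, Finset.filter_eq_empty_iff]
      intro n hn hv3
      apply hQ
      have := (Finset.mem_filter.1 hn).1
      rw [hF] at this
      have := (Finset.mem_filter.1 this).2
      rwa [hv3] at this
  have hc2 : |((F.filter (fun n : ℕ => ⌊(n : ℝ) / A + γ⌋₊ ∈ Ico V0 V1)).card : ℝ) -
      A * ∑ v ∈ Ico V0 V1, (if Q v then (1 : ℝ) else 0)| ≤ V1 - V0 := by
    rw [hc1, Finset.mul_sum, ← Finset.sum_sub_distrib]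
    refine (Finset.abs_sum_le_sum_abs _ _).trans ?_
    have h5 : ∑ v ∈ Ico V0 V1, |(if Q v then
        ((Ico ⌈A * ((v : ℝ) - γ)⌉₊ ⌈A * (v + 1 - γ)⌉₊).card : ℝ) else 0) -
        A * (if Q v then (1 : ℝ) else 0)| ≤ ∑ v ∈ Ico V0 V1, (1 : ℝ) := by
      refine Finset.sum_le_sum fun v hv => ?_
      have hv' := Finset.mem_Ico.1 hv
      have hv1 : (V0 : ℝ) ≤ v := by exact_mod_cast hv'.1
      split_ifs with hQ
      · rw [mul_one]
        exact fib_card A γ hA0 v (by linarith)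
      · simp
    refine h5.trans ?_
    rw [Finset.sum_const, Nat.card_Ico, nsmul_eq_mul, mul_one, Nat.cast_sub hVV]
  have hc3 : ((F.filter (fun n : ℕ => ¬ ⌊(n : ℝ) / A + γ⌋₊ ∈ Ico V0 V1)).card : ℝ) ≤
      A * (V0 - a + G) + A * (c - V1 + G) + 4 := by
    have hsub : F.filter (fun n : ℕ => ¬ ⌊(n : ℝ) / A + γ⌋₊ ∈ Ico V0 V1) ⊆
        Ico ⌊a * A⌋₊ ⌈A * (V0 - γ)⌉₊ ∪ Ico ⌈A * (V1 - γ)⌉₊ ⌈c * A⌉₊ := by
      intro n hn
      rw [Finset.mem_filter, hF, Finset.mem_filter, Finset.mem_Ico, Finset.mem_Ico] at hn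
      obtain ⟨⟨⟨hn1, hn2⟩, -⟩, hn3⟩ := hn
      rw [Finset.mem_union, Finset.mem_Ico, Finset.mem_Ico]
      have e : (n : ℝ) / A * A = n := div_mul_cancel₀ _ hA0.ne'
      by_cases hcase : ⌊(n : ℝ) / A + γ⌋₊ < V0
      · left
        refine ⟨hn1, ?_⟩
        rw [Nat.lt_ceil]
        have h6 : (n : ℝ) / A + γ < V0 := (Nat.floor_lt' (by omega)).1 hcase
        have : A * ((n : ℝ) / A) < A * (V0 - γ) := mul_lt_mul_of_pos_left (by linarith) hA0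
        linarith
      · right
        refine ⟨?_, hn2⟩
        rw [Nat.ceil_le]
        have h7 : V1 ≤ ⌊(n : ℝ) / A + γ⌋₊ := by
          by_contra h8
          exact hn3 ⟨by omega, by omega⟩
        have h6 : (V1 : ℝ) ≤ (n : ℝ) / A + γ := (Nat.le_floor_iff' (by omega)).1 h7
        have : A * (V1 - γ) ≤ A * ((n : ℝ) / A) := mul_le_mul_of_nonneg_left (by linarith) hA0.le
        linarith
    have h9 := (Finset.card_le_card hsub).trans (Finset.card_union_le _ _)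
    rw [Nat.card_Ico, Nat.card_Ico] at h9
    have ha1 : a * A ≤ A * (V0 - γ) := by
      have : A * a ≤ A * ((V0 : ℝ) - γ) := mul_le_mul_of_nonneg_left (by linarith) hA0.le
      linarith
    have ha2 : A * (V1 - γ) ≤ c * A := by
      have : A * ((V1 : ℝ) - γ) ≤ A * c := mul_le_mul_of_nonneg_left (by linarith) hA0.le
      linarith
    have ha3 : 0 ≤ A * ((V0 : ℝ) - γ) := (by positivity : 0 ≤ a * A).trans ha1
    have ha4 : A * ((V0 : ℝ) - γ) ≤ A * (V1 - γ) := mul_le_mul_of_nonneg_left (by linarith) hA0.le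
    have h10 : ⌊a * A⌋₊ ≤ ⌈A * ((V0 : ℝ) - γ)⌉₊ :=
      (Nat.floor_le_ceil _).trans (Nat.ceil_le_ceil ha1)
    have h11 : ⌈A * ((V1 : ℝ) - γ)⌉₊ ≤ ⌈c * A⌉₊ := Nat.ceil_le_ceil ha2
    have h12 : ((F.filter (fun n : ℕ => ¬ ⌊(n : ℝ) / A + γ⌋₊ ∈ Ico V0 V1)).card : ℝ) ≤
        ((⌈A * ((V0 : ℝ) - γ)⌉₊ : ℝ) - ⌊a * A⌋₊) + (⌈c * A⌉₊ - ⌈A * ((V1 : ℝ) - γ)⌉₊) := by
      rw [← Nat.cast_sub h10, ← Nat.cast_sub h11, ← Nat.cast_add]
      exact_mod_cast h9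
    have h13 := Nat.ceil_lt_add_one ha3
    have h14 := Nat.lt_floor_add_one (a * A)
    have h15 := Nat.ceil_lt_add_one (ha3.trans (ha4.trans ha2))
    have h16 := Nat.le_ceil (A * ((V1 : ℝ) - γ))
    have h17 : A * (-γ) ≤ A * G := mul_le_mul_of_nonneg_left (by linarith) hA0.le
    have h18 : A * γ ≤ A * G := mul_le_mul_of_nonneg_left (by linarith) hA0.le
    have h19 : (0 : ℝ) ≤ A := hA0.le
    nlinarith
  have hs : (F.card : ℝ) = ((F.filter (fun n : ℕ => ⌊(n : ℝ) / A + γ⌋₊ ∈ Ico V0 V1)).card : ℝ) +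
      ((F.filter (fun n : ℕ => ¬ ⌊(n : ℝ) / A + γ⌋₊ ∈ Ico V0 V1)).card : ℝ) := by
    exact_mod_cast hsplit.symm
  have hp : (0 : ℝ) ≤ ((F.filter (fun n : ℕ => ¬ ⌊(n : ℝ) / A + γ⌋₊ ∈ Ico V0 V1)).card : ℝ) :=
    Nat.cast_nonneg _
  rw [abs_le] at hc2 ⊢
  rw [hs]
  constructor <;> linarith [hc2.1, hc2.2]

end Pool.Agent.N222.GW
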