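import Pool.Agent.N176.GW.Stm
import Pool.Agent.N222.GW.CLa

set_option autoImplicit false

/-!
# Counting in cells and integrals (TASK CL)
-/

open Finset Filter Topology MeasureTheory

namespace Pool.Agent.N222.GW

open Pool.Agent.H305R2 (roughPart ff NN measurable_ff ff_nonneg ff_le_one)
open Pool.Agent.N176.GW

theorem ii_of_bdd {f : ℝ → ℝ} (hf : Measurable f) {M : ℝ} (hM : ∀ x, |f x| ≤ M) (a b : ℝ) :
    IntervalIntegrable f volume a b := by
  rw [intervalIntegrable_iff]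
  exact Measure.integrableOn_of_bounded (M := M) (by simp) hf.aestronglyMeasurable
    (Eventually.of_forall fun x => by rw [Real.norm_eq_abs]; exact hM x)

theorem ii_exp (f : ℝ → ℝ) (hf : Measurable f) (hb : ∀ x, |f x| ≤ 1) (a b : ℝ) :
    IntervalIntegrable (fun u => Real.exp u * f u) volume a b :=
  (ii_of_bdd hf hb a b).continuousOn_mul Real.continuous_exp.continuousOn

theorem ii_ff (q : ℕ) (a b : ℝ) :
    IntervalIntegrable (fun u => Real.exp u * ff q u) volume a b :=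
  ii_exp _ (measurable_ff q) (fun x => by
    rw [abs_of_nonneg (ff_nonneg q x)]; exact ff_le_one q x) a b

theorem int_piece (q n : ℕ) (hn : 1 ≤ n) :
    ∫ u in (Real.log n)..(Real.log (n + 1 : ℕ)), Real.exp u * ff q u =
      if (roughPart q n).Prime then 1 else 0 := by
  have hn0 : (0 : ℝ) < n := by exact_mod_cast hn
  have hle : Real.log n ≤ Real.log (n + 1 : ℕ) := Real.log_le_log hn0 (by push_cast; linarith)
  rw [intervalIntegral.integral_of_le hle]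
  have h1 : ∫ u in Set.Ioc (Real.log n) (Real.log (n + 1 : ℕ)), Real.exp u * ff q u =
      ∫ u in Set.Ioc (Real.log n) (Real.log (n + 1 : ℕ)), Real.exp u *
        (if (roughPart q n).Prime then (1 : ℝ) else 0) := by
    apply setIntegral_congr_fun measurableSet_Ioc
    intro u hu
    have h2 : (n : ℝ) < Real.exp u := (Real.log_lt_iff_lt_exp hn0).1 hu.1
    have h3 : Real.exp u ≤ (n + 1 : ℕ) := (Real.le_log_iff_exp_le (by positivity)).1 hu.2
    have h4 : ⌈Real.exp u⌉₊ = n + 1 := by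
      rw [Nat.ceil_eq_iff (by omega)]
      exact ⟨by simpa using h2, h3⟩
    have h5 : NN u = n := by unfold NN; rw [h4]; rfl
    simp only [ff, h5]
  rw [h1, ← intervalIntegral.integral_of_le hle, intervalIntegral.integral_mul_const,
    integral_exp, Real.exp_log hn0, Real.exp_log (by positivity)]
  push_cast
  ring

theorem int_sum (q V0 V1 : ℕ) (h0 : 1 ≤ V0) (h : V0 ≤ V1) :
    ∫ u in (Real.log (V0 : ℝ))..(Real.log (V1 : ℝ)), Real.exp u * ff q u =
      ∑ v ∈ Ico V0 V1, (if (roughPart q v).Prime then (1 : ℝ) else 0) := by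
  have h := intervalIntegral.sum_integral_adjacent_intervals_Ico (μ := volume)
    (f := fun u => Real.exp u * ff q u) (a := fun n : ℕ => Real.log (n : ℝ))
    (m := V0) (n := V1) h (fun k _ => ii_ff q _ _)
  rw [← h]
  refine Finset.sum_congr rfl fun n hn => ?_
  exact int_piece q n (h0.trans (Finset.mem_Ico.1 hn).1)

theorem int_end (q : ℕ) (x y : ℝ) (hx : 0 < x) (hxy : x ≤ y) :
    0 ≤ (∫ u in (Real.log x)..(Real.log y), Real.exp u * ff q u) ∧
    (∫ u in (Real.log x)..(Real.log y), Real.exp u * ff q u) ≤ y - x := by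
  have hle : Real.log x ≤ Real.log y := Real.log_le_log hx hxy
  constructor
  · exact intervalIntegral.integral_nonneg hle
      (fun u _ => mul_nonneg (Real.exp_pos u).le (ff_nonneg q u))
  · have h1 : (∫ u in (Real.log x)..(Real.log y), Real.exp u * ff q u) ≤
        ∫ u in (Real.log x)..(Real.log y), Real.exp u :=
      intervalIntegral.integral_mono_on hle (ii_ff q _ _)
        (Real.continuous_exp.intervalIntegrable _ _)
        (fun u _ => mul_le_of_le_one_right (Real.exp_pos u).le (ff_le_one q u))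
    rwa [integral_exp, Real.exp_log hx, Real.exp_log (hx.trans_le hxy)] at h1

theorem int_near (q V0 V1 : ℕ) (a c : ℝ) (ha : 0 < a) (h0 : 1 ≤ V0) (h1 : a ≤ V0)
    (h2 : V0 ≤ V1) (h3 : (V1 : ℝ) ≤ c) :
    |(∫ u in (Real.log a)..(Real.log c), Real.exp u * ff q u) -
      ∑ v ∈ Ico V0 V1, (if (roughPart q v).Prime then (1 : ℝ) else 0)| ≤ (V0 - a) + (c - V1) := by
  have hV0 : (0 : ℝ) < V0 := by exact_mod_cast h0
  have hV1 : (0 : ℝ) < V1 := by exact_mod_cast (h0.trans h2)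
  have e1 := intervalIntegral.integral_add_adjacent_intervals
    (ii_ff q (Real.log a) (Real.log V0)) (ii_ff q (Real.log V0) (Real.log V1))
  have e2 := intervalIntegral.integral_add_adjacent_intervals
    (ii_ff q (Real.log a) (Real.log V1)) (ii_ff q (Real.log V1) (Real.log c))
  rw [← e2, ← e1, int_sum q V0 V1 h0 h2]
  obtain ⟨a1, a2⟩ := int_end q a V0 ha h1
  obtain ⟨b1, b2⟩ := int_end q V1 c hV1 h3
  rw [abs_le]
  constructor <;> linarith

theorem large (r K : ℝ) (hr : 1 < r) (hK : 0 < K) :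
    ∃ P : ℕ, ∀ x ≥ P, K * (x : ℝ) ^ 2 ≤ r ^ x := by
  have h := (tendsto_pow_const_div_const_pow_of_one_lt 2 hr).eventually_le_const
    (show (0 : ℝ) < 1 / K by positivity)
  obtain ⟨P, hP⟩ := h.exists_forall_of_atTop
  refine ⟨P, fun x hx => ?_⟩
  have h1 := hP x hx
  have hr0 : (0 : ℝ) < r ^ x := pow_pos (by linarith) x
  rw [div_le_div_iff₀ hr0 hK] at h1
  linarith

theorem cl (α : ℝ) (hα : 1 < α) (g : ℕ → ℝ) (hg : ∃ G : ℝ, ∀ p, |g p| ≤ G) : S_CL α g := by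
  obtain ⟨G, hG⟩ := hg
  have hG0 : 0 ≤ G := (abs_nonneg (g 0)).trans (hG 0)
  obtain ⟨k, hk⟩ : ∃ k : ℕ, k = ⌈G⌉₊ + 1 := ⟨_, rfl⟩
  have hkG : G ≤ k := by rw [hk]; push_cast; linarith [Nat.le_ceil G]
  have hk1 : 1 ≤ k := by omega
  obtain ⟨K, hK⟩ : ∃ K : ℝ, K = 4 * k + 2 * G + 9 := ⟨_, rfl⟩
  have hk0 : (0 : ℝ) ≤ k := Nat.cast_nonneg k
  have hK0 : 0 < K := by rw [hK]; linarith
  obtain ⟨r, hr⟩ : ∃ r : ℝ, r = √α := ⟨_, rfl⟩
  have hr2 : r ^ 2 = α := by rw [hr]; exact Real.sq_sqrt (by linarith)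
  have hr1 : 1 < r := by
    rw [hr]; exact Real.lt_sqrt_of_sq_lt (by linarith)
  obtain ⟨P, hP⟩ := large r K hr1 hK0
  refine ⟨max P 1, fun x hx p hp1 hp2 z hz t ht j hj => ?_⟩
  have hPx := hP x (le_trans (le_max_left _ _) hx)
  have hx1 : 1 ≤ x := le_trans (le_max_right _ _) hx
  have hx1r : (1 : ℝ) ≤ x := by exact_mod_cast hx1
  have hj1 : (1 : ℝ) ≤ j := by exact_mod_cast hj
  obtain ⟨R, hR⟩ : ∃ R : ℝ, R = r ^ x := ⟨_, rfl⟩
  obtain ⟨A, hA⟩ : ∃ A : ℝ, A = α ^ (t - p) := ⟨_, rfl⟩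
  obtain ⟨B, hB⟩ : ∃ B : ℝ, B = α ^ (p - z) := ⟨_, rfl⟩
  have hAB : α ^ (t - z) = A * B := by
    rw [hA, hB, ← pow_add]; congr 1; omega
  have hR1 : 1 ≤ R := by rw [hR]; exact one_le_pow₀ hr1.le
  have hAR : R ≤ A := by
    rw [hA, hR, ← hr2, ← pow_mul]
    exact pow_le_pow_right₀ hr1.le (by omega)
  have hBR : R ≤ B := by
    rw [hB, hR, ← hr2, ← pow_mul]
    exact pow_le_pow_right₀ hr1.le (by omega)
  have hKR : K * (x : ℝ) ^ 2 ≤ R := by rw [hR]; exact hPx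
  have hx2 : (1 : ℝ) ≤ (x : ℝ) ^ 2 := one_le_pow₀ hx1r
  have hKR' : K ≤ R := by
    have : K * 1 ≤ K * (x : ℝ) ^ 2 := mul_le_mul_of_nonneg_left hx2 hK0.le
    linarith
  have hA1 : 1 ≤ A := hR1.trans hAR
  have hB1 : 1 ≤ B := hR1.trans hBR
  have hA0 : 0 < A := by linarith
  have hB0 : 0 < B := by linarith
  obtain ⟨a, ha⟩ : ∃ a : ℝ, a = j * B := ⟨_, rfl⟩
  obtain ⟨c, hc⟩ : ∃ c : ℝ, c = ((j : ℝ) + 1) * B := ⟨_, rfl⟩
  have hca : c - a = B := by rw [ha, hc]; ring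
  have haB : B ≤ a := by
    rw [ha]
    have : 1 * B ≤ (j : ℝ) * B := mul_le_mul_of_nonneg_right hj1 hB0.le
    linarith
  have ha0 : 0 < a := by linarith
  have hc0 : 0 < c := by linarith
  have hkc : k ≤ ⌊c⌋₊ := by
    rw [Nat.le_floor_iff hc0.le]
    linarith
  obtain ⟨V0, hV0⟩ : ∃ V0 : ℕ, V0 = ⌈a⌉₊ + k := ⟨_, rfl⟩
  obtain ⟨V1, hV1⟩ : ∃ V1 : ℕ, V1 = ⌊c⌋₊ - k := ⟨_, rfl⟩
  have hV0r : (V0 : ℝ) = ⌈a⌉₊ + k := by rw [hV0]; push_cast; rfl
  have hV1r : (V1 : ℝ) = ⌊c⌋₊ - k := by rw [hV1, Nat.cast_sub hkc]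
  have c1 := Nat.le_ceil a
  have c2 := Nat.ceil_lt_add_one ha0.le
  have c3 := Nat.floor_le hc0.le
  have c4 := Nat.lt_floor_add_one c
  have hVV : V0 ≤ V1 := by
    have : (V0 : ℝ) ≤ V1 := by
      rw [hV0r, hV1r]; linarith
    exact_mod_cast this
  have hcell : cell α z t j = Ico ⌊a * A⌋₊ ⌈c * A⌉₊ := by
    unfold cell
    rw [hAB, ha, hc]
    congr 2 <;> ring
  have hlv : ∀ n : ℕ, lv α g t p n = ⌊(n : ℝ) / A + g p⌋₊ := by
    intro n; unfold lv; rw [hA]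
  obtain ⟨S, hS⟩ : ∃ S : ℝ, S = ∑ v ∈ Ico V0 V1, (if (roughPart p v).Prime then (1 : ℝ) else 0) :=
    ⟨_, rfl⟩
  have h1 := cnt1 (fun v => (roughPart p v).Prime) A a c (g p) G hA1 ha0.le (hG p) V0 V1
    (by rw [hV0r]; linarith) (by rw [hV1r]; linarith) (by omega) hVV
  have h2 := int_near p V0 V1 a c ha0 (by omega) (by rw [hV0r]; linarith) hVV
    (by rw [hV1r]; linarith)
  rw [← hS] at h1 h2
  rw [hcell]
  simp only [hlv]
  rw [hAB, ← hB, ← ha, ← hc]
  obtain ⟨N, hN⟩ : ∃ N : ℝ, N = (((Ico ⌊a * A⌋₊ ⌈c * A⌉₊).filter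
    (fun n : ℕ => (roughPart p ⌊(n : ℝ) / A + g p⌋₊).Prime)).card : ℝ) := ⟨_, rfl⟩
  obtain ⟨I, hI⟩ : ∃ I : ℝ, I = ∫ u in (Real.log a)..(Real.log c), Real.exp u * ff p u := ⟨_, rfl⟩
  rw [← hN] at h1 ⊢
  rw [← hI] at h2 ⊢
  have h3 : |N - A * I| ≤ B + A * (4 * k + 4 + 2 * G) + 4 := by
    have e : N - A * I = (N - A * S) + A * (-(I - S)) := by ring
    rw [e]
    refine (abs_add_le _ _).trans ?_
    rw [abs_mul, abs_neg, abs_of_pos hA0]
    have h4 : A * |I - S| ≤ A * (2 * k + 2) := by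
      refine mul_le_mul_of_nonneg_left (h2.trans ?_) hA0.le
      rw [hV0r, hV1r]; linarith
    have h5 : A * (V0 - a + G) ≤ A * (k + 1 + G) := by
      refine mul_le_mul_of_nonneg_left ?_ hA0.le
      rw [hV0r]; linarith
    have h6 : A * (c - V1 + G) ≤ A * (k + 1 + G) := by
      refine mul_le_mul_of_nonneg_left ?_ hA0.le
      rw [hV1r]; linarith
    have h7 : (V1 : ℝ) - V0 ≤ B := by
      rw [hV0r, hV1r]; linarith
    linarith
  have e2 : N / (A * B) - I / B = (N - A * I) / (A * B) := by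
    field_simp
  rw [e2, abs_div, abs_of_pos (mul_pos hA0 hB0)]
  have h8 : (B + A * (4 * k + 4 + 2 * G) + 4) * R ≤ K * (A * B) := by
    have g1 : B * R ≤ B * A := mul_le_mul_of_nonneg_left hAR hB0.le
    have g2 : A * (4 * k + 4 + 2 * G) * R ≤ A * (4 * k + 4 + 2 * G) * B :=
      mul_le_mul_of_nonneg_left hBR (mul_nonneg hA0.le (by linarith))
    have g3 : R ≤ A * B := by
      have : A * 1 ≤ A * B := mul_le_mul_of_nonneg_left hB1 hA0.le
      linarith
    have g4 : K * (A * B) = B * A + A * (4 * k + 4 + 2 * G) * B + 4 * (A * B) := by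
      rw [hK]; ring
    rw [g4]
    nlinarith
  rw [div_le_div_iff₀ (mul_pos hA0 hB0) (by positivity)]
  have h9 : |N - A * I| * (x : ℝ) ^ 2 * K ≤ 1 * (A * B) * K := by
    calc |N - A * I| * (x : ℝ) ^ 2 * K = |N - A * I| * (K * (x : ℝ) ^ 2) := by ring
      _ ≤ |N - A * I| * R := mul_le_mul_of_nonneg_left hKR (abs_nonneg _)
      _ ≤ (B + A * (4 * k + 4 + 2 * G) + 4) * R := mul_le_mul_of_nonneg_right h3 (by linarith)
      _ ≤ K * (A * B) := h8
      _ = 1 * (A * B) * K := by ring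
  exact le_of_mul_le_mul_right h9 hK0

end Pool.Agent.N222.GW
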